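import Mathlib

set_option autoImplicit false

namespace Pool.Agent.Results.MP_ca5fbf_co.Counter

open Finset

/-- Largest size of a subset of `{1, …, m}` with no three-term progression. -/
def r3 (m : ℕ) : ℕ := addRothNumber (Icc 1 m)

/-- `A(n) = n - r₃(⌈n/3⌉)`. -/
def A (n : ℕ) : ℤ := n - r3 ((n + 2) / 3)

/-- `B(n) = n - max_{k+l=⌈n/2⌉} (r₃(⌈k/2⌉) + r₃(⌈l/2⌉))`. -/
def B (n : ℕ) : ℤ :=
  n - ((HasAntidiagonal.antidiagonal ((n + 1) / 2)).sup fun p => r3 ((p.1 + 1) / 2) + r3 ((p.2 + 1) / 2) : ℕ)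

lemma r3_eq (m : ℕ) : r3 m = rothNumberNat m := by
  rw [r3, ← Ico_add_one_right_eq_Icc, addRothNumber_Ico]; rfl

theorem result : ∃ n, 1 ≤ n ∧ A n < B n := by
  by_contra! h
  have key : ∀ k N, 4 ^ k * r3 N + 2 * 4 ^ k ≤ 3 ^ k * N + 2 * 8 ^ k := by
    intro k
    induction k with
    | zero => intro N; have := rothNumberNat_le N; rw [r3_eq]; omega
    | succ k ih =>
      intro N
      have q : 3 ^ k ≤ 4 ^ k := Nat.pow_le_pow_left (by simp) k
      rcases N.eq_zero_or_pos with rfl | z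
      · have : 4 ^ (k + 1) ≤ 8 ^ (k + 1) := Nat.pow_le_pow_left (by simp) _
        rw [r3_eq, rothNumberNat_zero]; omega
      have := h (3 * N) (by omega)
      obtain ⟨⟨a, b⟩, m, e⟩ := exists_mem_eq_sup (HasAntidiagonal.antidiagonal ((3 * N + 1) / 2))
        ⟨(0, _), HasAntidiagonal.mem_antidiagonal.2 (zero_add _)⟩ fun p => r3 ((p.1 + 1) / 2) + r3 ((p.2 + 1) / 2)
      rw [A, B, e, show (3 * N + 2) / 3 = N by omega] at this
      rw [HasAntidiagonal.mem_antidiagonal] at m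
      have c : r3 N ≤ r3 ((a + 1) / 2) + r3 ((b + 1) / 2) := by simp only at this; omega
      have d : 4 * ((a + 1) / 2 + (b + 1) / 2) ≤ 3 * N + 5 := by simp only at m; omega
      generalize (a + 1) / 2 = x at c d
      generalize (b + 1) / 2 = y at c d
      have h1 := ih x
      have h2 := ih y
      simp only [pow_succ]
      generalize 3 ^ k = P, 4 ^ k = Q, 8 ^ k = R at h1 h2 q ⊢
      have h3 := Nat.mul_le_mul_left Q c
      have h4 := Nat.mul_le_mul_left P d
      linarith only [h1, h2, h3, h4, q, Q.zero_le]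
  have b := Behrend.roth_lower_bound (N := 4 ^ 400)
  have k := key 400 (4 ^ 400)
  rw [r3_eq] at k
  have u : rothNumberNat (4 ^ 400) ≤ 3 ^ 401 := by
    generalize rothNumberNat _ = x at k
    by_contra! c
    have := Nat.mul_le_mul_left (4 ^ 400) c.le
    revert this k
    generalize 4 ^ 400 * x = y
    norm_num
    omega
  have l : √(Real.log ((4 ^ 400 : ℕ) : ℝ)) ≤ 24 := by
    rw [Real.sqrt_le_iff, Nat.cast_pow, Real.log_pow, show ((4 : ℕ) : ℝ) = 2 ^ 2 by norm_num, Real.log_pow]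
    have := Real.log_two_lt_d9
    constructor <;> push_cast <;> linarith
  have e : Real.exp 96 ≤ 3 ^ 96 := by
    rw [show (96 : ℝ) = (96 : ℕ) * 1 by norm_num, Real.exp_nat_mul]
    exact pow_le_pow_left₀ (Real.exp_pos 1).le (by have := Real.exp_one_lt_d9; linarith) _
  have w : (1 : ℝ) ≤ Real.exp (-4 * √(Real.log ((4 ^ 400 : ℕ) : ℝ))) * 3 ^ 96 :=
    le_trans (by rw [← Real.exp_add]; exact Real.one_le_exp (by linarith))
      (mul_le_mul_of_nonneg_left e (Real.exp_pos _).le)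
  have u' : (rothNumberNat (4 ^ 400) : ℝ) ≤ (3 ^ 401 : ℕ) := Nat.cast_le.2 u
  have : ((4 ^ 400 : ℕ) : ℝ) ≤ (3 ^ 401 : ℕ) * 3 ^ 96 :=
    (le_mul_of_one_le_right (Nat.cast_nonneg _) w).trans (by
      rw [← mul_assoc]; exact mul_le_mul_of_nonneg_right (b.trans u') (by positivity))
  have : 4 ^ 400 ≤ 3 ^ 401 * 3 ^ 96 := by exact_mod_cast this
  revert this
  decide +kernel

end Pool.Agent.Results.MP_ca5fbf_co.Counter
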